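import Pool.Agent.N845.SP.Main

/-!
# Real relations between the traces of Rankin-Selberg products, tested on arbitrary functions of the
parameters
-/

set_option autoImplicit false

namespace Pool.Agent.U664.RR

open Finset Filter Topology Complex Pool.Agent.N210.FV Pool.Agent.N210.FW Pool.Agent.N845.SP

/-- what is used of a Rankin-Selberg L-function -/
structure RSL {m n : ℕ} (S : Finset ℕ) (α : ℕ → Fin m → ℂ) (β : ℕ → Fin n → ℂ) (μ : List ℂ)
    (N D : ℂ → ℂ) : Prop where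
  diffN : Differentiable ℂ N
  diffD : Differentiable ℂ D
  order : ∃ C : ℝ, ∀ s, ‖N s‖ ≤ Real.exp (C * (1 + ‖s‖) ^ (3 / 2 : ℝ)) ∧
    ‖D s‖ ≤ Real.exp (C * (1 + ‖s‖) ^ (3 / 2 : ℝ))
  ne : ∀ s : ℂ, 1 < s.re → D s ≠ 0
  euler : ∀ s : ℂ, 1 < s.re → Tendsto (fun X : ℕ =>
    ∏ p ∈ (Finset.range X).filter (fun p => p.Prime ∧ p ∉ S),
      ∏ k, ∏ l, (1 - α p k * β p l * (p : ℂ) ^ (-s))⁻¹) atTop (𝓝 (N s / D s))
  fe : ∃ (l l' : List (ℕ × ℂ)) (q : ℝ) (ε : ℂ), 0 < q ∧ ε ≠ 0 ∧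
    (∀ x ∈ l, x.1.Prime ∧ x.1 ∈ S) ∧ (∀ x ∈ l', x.1.Prime ∧ x.1 ∈ S) ∧
    ∀ s, (q : ℂ) ^ s * gi μ (1 - s) * ef l (1 - s) * ef l' s * (N s * D (1 - s)) =
      ε * (q : ℂ) ^ (1 - s) * gi μ s * ef l s * ef l' (1 - s) * (N (1 - s) * D s)

/-- products of parameters, enumerated -/
noncomputable def pe {m n : ℕ} (α : ℕ → Fin m → ℂ) (β : ℕ → Fin n → ℂ) (p q : ℕ) : ℂ :=
  if h : q < m * n then α p (finProdFinEquiv.symm ⟨q, h⟩).1 * β p (finProdFinEquiv.symm ⟨q, h⟩).2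
  else 0

theorem prod_pe {M : Type} [CommMonoid M] {m n : ℕ} (α : ℕ → Fin m → ℂ) (β : ℕ → Fin n → ℂ) (p : ℕ)
    (F : ℂ → M) : ∏ q ∈ range (m * n), F (pe α β p q) = ∏ k, ∏ l, F (α p k * β p l) := by
  rw [Finset.prod_range]
  have h : ∀ q : Fin (m * n), F (pe α β p q) =
      (fun x : Fin m × Fin n => F (α p x.1 * β p x.2)) (finProdFinEquiv.symm q) := by
    intro q
    unfold pe
    rw [dif_pos q.2]
  rw [prod_congr rfl fun q _ => h q, Equiv.prod_comp finProdFinEquiv.symm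
    (fun x : Fin m × Fin n => F (α p x.1 * β p x.2)), Fintype.prod_prod_type]

theorem sum_pe {M : Type} [AddCommMonoid M] {m n : ℕ} (α : ℕ → Fin m → ℂ) (β : ℕ → Fin n → ℂ) (p : ℕ)
    (F : ℂ → M) : ∑ q ∈ range (m * n), F (pe α β p q) = ∑ k, ∑ l, F (α p k * β p l) := by
  rw [Finset.sum_range]
  have h : ∀ q : Fin (m * n), F (pe α β p q) =
      (fun x : Fin m × Fin n => F (α p x.1 * β p x.2)) (finProdFinEquiv.symm q) := by
    intro q
    unfold pe
    rw [dif_pos q.2]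
  rw [sum_congr rfl fun q _ => h q, Equiv.sum_comp finProdFinEquiv.symm
    (fun x : Fin m × Fin n => F (α p x.1 * β p x.2)), Fintype.sum_prod_type]

theorem RSL.toLG {m n : ℕ} {S : Finset ℕ} {α : ℕ → Fin m → ℂ} {β : ℕ → Fin n → ℂ} {μ : List ℂ}
    {N D : ℂ → ℂ} (h : RSL S α β μ N D) : LG S (range (m * n)) (pe α β) μ N D := by
  refine ⟨h.diffN, h.diffD, h.order, h.ne, fun s hs => ?_, h.fe⟩
  refine (h.euler s hs).congr fun X => ?_
  refine prod_congr rfl fun p _ => ?_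
  rw [prod_pe α β p fun x => (1 - x * (p : ℂ) ^ (-s))⁻¹]

/-- powers of different nonzero complex numbers are independent -/
theorem pow_indep (X : Finset ℂ) (w : ℂ → ℂ) (h0 : ∀ z ∈ X, z ≠ 0)
    (h : ∀ m : ℕ, ∑ z ∈ X, w z * z ^ (m + 1) = 0) : ∀ z ∈ X, w z = 0 := by
  classical
  have hli := linearIndependent_monoidHom (Multiplicative ℕ) ℂ
  have hli2 : LinearIndependent ℂ fun z : ℂ => ((powersHom ℂ z : Multiplicative ℕ →* ℂ) :
      Multiplicative ℕ → ℂ) := hli.comp (powersHom ℂ) (powersHom ℂ).injective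
  rw [linearIndependent_iff'] at hli2
  have h2 := hli2 X (fun z => w z * z) (by
    funext m
    rw [Finset.sum_apply]
    simp only [Pi.smul_apply, smul_eq_mul, Pi.zero_apply]
    rw [← h (Multiplicative.toAdd m)]
    refine sum_congr rfl fun z _ => ?_
    rw [powersHom_apply, pow_succ]
    ring)
  intro z hz
  exact (mul_eq_zero.1 (h2 z hz)).resolve_right (h0 z hz)

/-- vanishing of all power sums of a weighted finite family of nonzero numbers, tested on an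
arbitrary function -/
theorem test_mul {ι : Type} [Fintype ι] (w : ι → ℝ) (v : ι → ℂ) (hv : ∀ i, v i ≠ 0)
    (h : ∀ n : ℕ, ∑ i, (w i : ℂ) * v i ^ (n + 1) = 0) (g : ℂ → ℝ) : ∑ i, w i * g (v i) = 0 := by
  classical
  obtain ⟨X, hX⟩ : ∃ X : Finset ℂ, X = univ.image v := ⟨_, rfl⟩
  have hmem : ∀ i ∈ (univ : Finset ι), v i ∈ X := by
    intro i _
    rw [hX]
    exact mem_image_of_mem _ (mem_univ _)
  have key : ∀ z ∈ X, (∑ i ∈ univ.filter (fun i => v i = z), (w i : ℂ)) = 0 := by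
    refine pow_indep X (fun z => ∑ i ∈ univ.filter (fun i => v i = z), (w i : ℂ)) ?_ ?_
    · intro z hz
      rw [hX] at hz
      obtain ⟨i, -, rfl⟩ := mem_image.1 hz
      exact hv i
    · intro m
      rw [← h m, ← Finset.sum_fiberwise_of_maps_to hmem fun i => (w i : ℂ) * v i ^ (m + 1)]
      refine sum_congr rfl fun z _ => ?_
      rw [sum_mul]
      refine sum_congr rfl fun i hi => ?_
      rw [(mem_filter.1 hi).2]
  rw [← Finset.sum_fiberwise_of_maps_to hmem fun i => w i * g (v i)]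
  refine sum_eq_zero fun z hz => ?_
  have h1 : ∑ i ∈ univ.filter (fun i => v i = z), w i * g (v i) =
      (∑ i ∈ univ.filter (fun i => v i = z), w i) * g z := by
    rw [sum_mul]
    refine sum_congr rfl fun i hi => ?_
    rw [(mem_filter.1 hi).2]
  rw [h1]
  have h2 : (∑ i ∈ univ.filter (fun i => v i = z), w i) = 0 := by
    exact_mod_cast key z hz
  rw [h2, zero_mul]

/-- the relation between the gamma factors, tested on an arbitrary function -/
theorem test_add {J : Type} [Fintype J] (c : J → ℝ) (μ : J → List ℂ)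
    (h : ∀ z : ℂ, ∑ j, c j * ((mo (gi (μ j)) (1 - z) : ℝ) - mo (gi (μ j)) z) = 0) (g : ℂ → ℝ) :
    ∑ j, c j * ((μ j).map fun m => g (1 + m) + g (2 - m)).sum = 0 := by
  classical
  have h' : ∀ z : ℂ, ∑ j, c j * ((μ j).map fun m => (if z = 1 + m then (1 : ℝ) else 0) +
      if z = 2 - m then 1 else 0).sum = 0 := by
    intro z
    have h1 := h z
    have h2 := h (z - 2)
    have h3 : ∑ j, c j * (((mo (gi (μ j)) (1 - z) : ℝ) - mo (gi (μ j)) z) -
        ((mo (gi (μ j)) (1 - (z - 2)) : ℝ) - mo (gi (μ j)) (z - 2))) = 0 := by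
      simp only [mul_sub, sum_sub_distrib] at h1 h2 ⊢
      linarith
    refine Eq.trans (sum_congr rfl fun j _ => ?_) h3
    rw [gi_diff2]
  obtain ⟨X, hX⟩ : ∃ X : Finset ℂ, X = univ.biUnion fun j =>
    (μ j).toFinset.image (fun m => 1 + m) ∪ (μ j).toFinset.image (fun m => 2 - m) := ⟨_, rfl⟩
  have hm1 : ∀ j, ∀ m ∈ μ j, 1 + m ∈ X := by
    intro j m hm
    rw [hX, mem_biUnion]
    exact ⟨j, mem_univ _, mem_union_left _ (mem_image_of_mem _ (List.mem_toFinset.2 hm))⟩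
  have hm2 : ∀ j, ∀ m ∈ μ j, 2 - m ∈ X := by
    intro j m hm
    rw [hX, mem_biUnion]
    exact ⟨j, mem_univ _, mem_union_right _ (mem_image_of_mem _ (List.mem_toFinset.2 hm))⟩
  have h4 : ∑ z ∈ X, g z * ∑ j, c j * ((μ j).map fun m => (if z = 1 + m then (1 : ℝ) else 0) +
      if z = 2 - m then 1 else 0).sum = 0 := sum_eq_zero fun z _ => by rw [h' z, mul_zero]
  rw [← h4]
  have h5 : ∀ z ∈ X, g z * ∑ j, c j * ((μ j).map fun m => (if z = 1 + m then (1 : ℝ) else 0) +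
      if z = 2 - m then 1 else 0).sum = ∑ j, c j * ∑ i : Fin (μ j).length,
        (g z * (if z = 1 + (μ j)[i.1] then (1 : ℝ) else 0) +
          g z * if z = 2 - (μ j)[i.1] then 1 else 0) := by
    intro z _
    rw [mul_sum]
    refine sum_congr rfl fun j _ => ?_
    rw [← Fin.sum_univ_fun_getElem (μ j) fun m => (if z = 1 + m then (1 : ℝ) else 0) +
      if z = 2 - m then 1 else 0, mul_left_comm, mul_sum]
    congr 1
    refine sum_congr rfl fun i _ => ?_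
    rw [mul_add]
  rw [sum_congr rfl h5, sum_comm]
  refine sum_congr rfl fun j _ => ?_
  rw [← mul_sum, ← Fin.sum_univ_fun_getElem (μ j) fun m => g (1 + m) + g (2 - m), sum_comm]
  congr 1
  refine sum_congr rfl fun i _ => ?_
  rw [sum_add_distrib]
  simp only [mul_ite, mul_one, mul_zero]
  rw [Finset.sum_ite_eq' X (1 + (μ j)[i.1]) g, Finset.sum_ite_eq' X (2 - (μ j)[i.1]) g,
    if_pos (hm1 j _ (List.getElem_mem _)), if_pos (hm2 j _ (List.getElem_mem _))]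

/-- **The engine**: a real relation between the traces of Rankin-Selberg products at almost all
primes, tested on arbitrary functions at every unramified prime and at infinity. -/
theorem engine {J : Type} [Fintype J] [Nonempty J] {a b : J → ℕ} {S T : Finset ℕ}
    (A : ∀ j, ℕ → Fin (a j) → ℂ) (B : ∀ j, ℕ → Fin (b j) → ℂ) (c : J → ℝ)
    (hA0 : ∀ j, ∀ p : ℕ, p.Prime → p ∉ S → ∀ k, A j p k ≠ 0)
    (hB0 : ∀ j, ∀ p : ℕ, p.Prime → p ∉ S → ∀ k, B j p k ≠ 0)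
    (hA : ∀ j, ∀ p : ℕ, p.Prime → p ∉ S → ∃ σ : Equiv.Perm (Fin (a j)),
      ∀ k, A j p (σ k) = (A j p k)⁻¹)
    (hB : ∀ j, ∀ p : ℕ, p.Prime → p ∉ S → ∃ σ : Equiv.Perm (Fin (b j)),
      ∀ k, B j p (σ k) = (B j p k)⁻¹)
    (μ : J → List ℂ) (hRS : ∀ j, ∃ N D, RSL S (A j) (B j) (μ j) N D) {ρ : ℝ}
    (hbA : ∀ j, ∀ p : ℕ, p.Prime → p ∉ T → ∀ k, ‖A j p k‖ ≤ ρ)
    (hbB : ∀ j, ∀ p : ℕ, p.Prime → p ∉ T → ∀ k, ‖B j p k‖ ≤ ρ)
    (hrel : ∀ p : ℕ, p.Prime → p ∉ T → ∑ j, (c j : ℂ) * ((∑ k, A j p k) * ∑ l, B j p l) = 0) :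
    (∀ p : ℕ, p.Prime → p ∉ S → ∀ g : ℂ → ℝ,
      ∑ j, c j * ∑ k, ∑ l, g (A j p k * B j p l) = 0) ∧
    ∀ g : ℂ → ℝ, ∑ j, c j * ((μ j).map fun m => g (1 + m) + g (2 - m)).sum = 0 := by
  classical
  choose N D hN using hRS
  set ρ₁ : ℝ := (1 + |ρ|) ^ 2 with hρ₁
  have hρ0 : 1 ≤ 1 + |ρ| := by linarith [abs_nonneg ρ]
  have hρ1 : 1 ≤ ρ₁ := one_le_pow₀ hρ0
  have hρa : ρ ≤ 1 + |ρ| := by linarith [le_abs_self ρ]
  obtain ⟨B', hB'⟩ := exists_nat_ge (4 * ρ₁ ^ 2)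
  set S₁ : Finset ℕ := S ∪ T ∪ range B' with hS₁
  have hSS : S ⊆ S₁ := fun p hp => mem_union_left _ (mem_union_left _ hp)
  have hT : ∀ p : PS S₁, (p : ℕ) ∉ T := fun p h => p.2.2 (mem_union_left _ (mem_union_right _ h))
  have hpB : ∀ p : PS S₁, 4 * ρ₁ ^ 2 ≤ (p : ℕ) := by
    intro p
    refine hB'.trans ?_
    by_contra h1
    push Not at h1
    exact p.2.2 (mem_union_right _ (mem_range.2 (by exact_mod_cast h1)))
  have hβ : ∀ j : J, ∀ p : PS S₁, ∀ q ∈ range (a j * b j), ‖pe (A j) (B j) p q‖ ≤ ρ₁ := by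
    intro j p q hq
    unfold pe
    rw [dif_pos (mem_range.1 hq), norm_mul, hρ₁, sq]
    exact mul_le_mul ((hbA _ p p.2.1 (hT p) _).trans hρa) ((hbB _ p p.2.1 (hT p) _).trans hρa)
      (norm_nonneg _) (by positivity)
  set M : ℝ := ∑ j : J, ((a j * b j : ℕ) : ℝ) with hM
  have hb : ∀ j : J, Bnd S₁ (ps (range (a j * b j)) (pe (A j) (B j))) M ρ₁ := by
    intro j
    refine ⟨sum_nonneg fun r _ => Nat.cast_nonneg _, hρ1, fun p k => ?_, hpB⟩
    unfold ps
    refine (norm_sum_le _ _).trans ?_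
    have h1 : ∀ q ∈ range (a j * b j), ‖pe (A j) (B j) p q ^ k‖ ≤ ρ₁ ^ k := by
      intro q hq
      rw [norm_pow]
      exact pow_le_pow_left₀ (norm_nonneg _) (hβ j p q hq) k
    refine (sum_le_sum h1).trans ?_
    rw [sum_const, card_range, nsmul_eq_mul]
    refine mul_le_mul_of_nonneg_right ?_ (by positivity)
    exact single_le_sum (f := fun j : J => ((a j * b j : ℕ) : ℝ)) (fun _ _ => Nat.cast_nonneg _)
      (mem_univ j)
  have hps : ∀ (j : J) (p k : ℕ), ps (range (a j * b j)) (pe (A j) (B j)) p k =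
      ∑ x, ∑ y, (A j p x * B j p y) ^ k := fun j p k => sum_pe _ _ p fun x => x ^ k
  have hrel' : ∀ p : PS S₁, ∑ j : J, (c j : ℂ) * ps (range (a j * b j)) (pe (A j) (B j)) p 1 = 0 := by
    intro p
    rw [← hrel p p.2.1 (hT p)]
    refine sum_congr rfl fun j _ => ?_
    rw [hps, sum_mul_sum]
    simp only [pow_one]
  have hsym : ∀ j : J, ∀ p : ℕ, p.Prime → p ∉ S → ∀ x : ℂ, x ≠ 0 →
      (open Classical in ∑ q ∈ range (a j * b j),
        if pe (A j) (B j) p q = x then (1 : ℝ) else 0) =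
      (open Classical in ∑ q ∈ range (a j * b j),
        if pe (A j) (B j) p q = x⁻¹ then (1 : ℝ) else 0) := by
    intro j p hp hpS x _
    rw [sum_pe (A j) (B j) p fun y => if y = x then (1 : ℝ) else 0,
      sum_pe (A j) (B j) p fun y => if y = x⁻¹ then (1 : ℝ) else 0]
    obtain ⟨σ, hσ⟩ := hA j p hp hpS
    obtain ⟨τ, hτ⟩ := hB j p hp hpS
    rw [← Equiv.sum_comp σ]
    refine sum_congr rfl fun u _ => ?_
    rw [← Equiv.sum_comp τ]
    refine sum_congr rfl fun v _ => ?_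
    rw [hσ, hτ, ← mul_inv]
    congr 1
    rw [eq_iff_iff]
    exact ⟨fun h => by rw [← h, inv_inv], fun h => by rw [h, inv_inv]⟩
  obtain ⟨h1, h2⟩ := rel_all (c := c) (fun j : J => (hN j).toLG) hSS hb hβ hrel' hsym
  refine ⟨fun p hp hpS g => ?_, test_add c μ h2⟩
  have h3 := test_mul (ι := Σ j : J, Fin (a j) × Fin (b j)) (fun x => c x.1)
    (fun x => A x.1 p x.2.1 * B x.1 p x.2.2)
    (fun x => mul_ne_zero (hA0 x.1 p hp hpS _) (hB0 x.1 p hp hpS _)) (fun m => by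
      rw [Fintype.sum_sigma]
      refine Eq.trans (sum_congr rfl fun j _ => ?_) (h1 p hp hpS m)
      rw [hps, ← Fintype.sum_prod_type' (f := fun x y => (A j p x * B j p y) ^ (m + 1)), mul_sum]) g
  rw [Fintype.sum_sigma] at h3
  refine Eq.trans (sum_congr rfl fun j _ => ?_) h3
  rw [← Fintype.sum_prod_type' (f := fun x y => g (A j p x * B j p y)), mul_sum]

end Pool.Agent.U664.RR
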