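import Pool.Agent.U664.RR.Eng

/-!
# One polynomial identity of degree two between Hecke eigenvalues: temperedness
-/

set_option autoImplicit false

namespace Pool.Agent.U664.RR

open Finset Filter Topology Complex Pool.Agent.N210.FV Pool.Agent.N210.FW Pool.Agent.N845.SP

variable {r m : ℕ} {n : Fin (r + 1) → ℕ} {b : Fin m → ℕ}

theorem exp_bdd {a C : ℝ} (h : ∀ t : ℝ, Real.exp (t * a) ≤ C) : a = 0 := by
  by_contra ha
  have h1 := h (C / a)
  rw [div_mul_cancel₀ _ ha] at h1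
  have := Real.add_one_le_exp C
  linarith

theorem two_le_add_inv {x : ℝ} (hx : 0 < x) : 2 ≤ x + x⁻¹ := by
  have h1 : x * x⁻¹ = 1 := mul_inv_cancel₀ hx.ne'
  have h2 : 0 < x⁻¹ := inv_pos.2 hx
  nlinarith [sq_nonneg (x - x⁻¹), sq_nonneg (x + x⁻¹ - 2)]

/-- the relation, tested on arbitrary functions -/
theorem rel_main {S T : Finset ℕ} (α : ∀ i : Fin (r + 1), ℕ → Fin (n i) → ℂ)
    (β : ∀ k : Fin m, ℕ → Fin (b k) → ℂ) (c : Fin (r + 1) → Fin (r + 1) → ℝ) (d : Fin m → ℝ)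
    (hα0 : ∀ i, ∀ p : ℕ, p.Prime → p ∉ S → ∀ k, α i p k ≠ 0)
    (hβ0 : ∀ i, ∀ p : ℕ, p.Prime → p ∉ S → ∀ k, β i p k ≠ 0)
    (hα : ∀ i, ∀ p : ℕ, p.Prime → p ∉ S → ∃ σ : Equiv.Perm (Fin (n i)),
      ∀ k, α i p (σ k) = (α i p k)⁻¹)
    (hβ : ∀ i, ∀ p : ℕ, p.Prime → p ∉ S → ∃ σ : Equiv.Perm (Fin (b i)),
      ∀ k, β i p (σ k) = (β i p k)⁻¹)
    (μ : Fin (r + 1) → Fin (r + 1) → List ℂ) (ν : Fin m → List ℂ)
    (hRS : ∀ i j, ∃ N D, RSL S (α i) (α j) (μ i j) N D)
    (hL : ∀ k, ∃ N D, RSL S (fun _ (_ : Fin 1) => 1) (β k) (ν k) N D) {ρ : ℝ}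
    (hbα : ∀ i, ∀ p : ℕ, p.Prime → p ∉ T → ∀ k, ‖α i p k‖ ≤ ρ)
    (hbβ : ∀ i, ∀ p : ℕ, p.Prime → p ∉ T → ∀ k, ‖β i p k‖ ≤ ρ)
    (hrel : ∀ p : ℕ, p.Prime → p ∉ T →
      ∑ i, ∑ j, (c i j : ℂ) * ((∑ k, α i p k) * ∑ l, α j p l) = ∑ k, (d k : ℂ) * ∑ l, β k p l) :
    (∀ p : ℕ, p.Prime → p ∉ S → ∀ g : ℂ → ℝ,
      ∑ i, ∑ j, c i j * ∑ k, ∑ l, g (α i p k * α j p l) = ∑ k, d k * ∑ l, g (β k p l)) ∧
    ∀ g : ℂ → ℝ, ∑ i, ∑ j, c i j * ((μ i j).map fun m => g (1 + m) + g (2 - m)).sum =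
      ∑ k, d k * ((ν k).map fun m => g (1 + m) + g (2 - m)).sum := by
  classical
  have hρ1 : (1 : ℝ) ≤ 1 + |ρ| := by linarith [abs_nonneg ρ]
  have hρa : ρ ≤ 1 + |ρ| := by linarith [le_abs_self ρ]
  obtain ⟨h1, h2⟩ := engine (J := (Fin (r + 1) × Fin (r + 1)) ⊕ Fin m)
    (a := Sum.elim (fun x => n x.1) fun _ => 1) (b := Sum.elim (fun x => n x.2) fun k => b k)
    (S := S) (T := T)
    (fun j => match j with
      | .inl x => α x.1
      | .inr _ => fun _ _ => 1)
    (fun j => match j with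
      | .inl x => α x.2
      | .inr k => β k)
    (Sum.elim (fun x => c x.1 x.2) fun k => - d k)
    (by
      rintro (x | k) p hp hpS q
      · exact hα0 x.1 p hp hpS q
      · exact one_ne_zero)
    (by
      rintro (x | k) p hp hpS q
      · exact hα0 x.2 p hp hpS q
      · exact hβ0 k p hp hpS q)
    (by
      rintro (x | k) p hp hpS
      · exact hα x.1 p hp hpS
      · exact ⟨1, fun _ => inv_one.symm⟩)
    (by
      rintro (x | k) p hp hpS
      · exact hα x.2 p hp hpS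
      · exact hβ k p hp hpS)
    (Sum.elim (fun x => μ x.1 x.2) fun k => ν k)
    (by
      rintro (x | k)
      · exact hRS x.1 x.2
      · exact hL k)
    (ρ := 1 + |ρ|)
    (by
      rintro (x | k) p hp hpT q
      · exact (hbα x.1 p hp hpT q).trans hρa
      · show ‖(1 : ℂ)‖ ≤ _
        rw [norm_one]
        exact hρ1)
    (by
      rintro (x | k) p hp hpT q
      · exact (hbα x.2 p hp hpT q).trans hρa
      · exact (hbβ k p hp hpT q).trans hρa)
    (by
      intro p hp hpT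
      rw [Fintype.sum_sum_type]
      show (∑ x : Fin (r + 1) × Fin (r + 1), (c x.1 x.2 : ℂ) *
        ((∑ k, α x.1 p k) * ∑ l, α x.2 p l)) +
          ∑ k : Fin m, ((-d k : ℝ) : ℂ) * ((∑ _x : Fin 1, (1 : ℂ)) * ∑ l, β k p l) = 0
      rw [Fintype.sum_prod_type' (f := fun i j => (c i j : ℂ) *
        ((∑ k, α i p k) * ∑ l, α j p l)), hrel p hp hpT, ← sum_add_distrib]
      refine sum_eq_zero fun k _ => ?_
      simp)
  refine ⟨fun p hp hpS g => ?_, fun g => ?_⟩
  · have h3 := h1 p hp hpS g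
    rw [Fintype.sum_sum_type] at h3
    have h4 : (∑ x : Fin (r + 1) × Fin (r + 1), c x.1 x.2 *
        ∑ k, ∑ l, g (α x.1 p k * α x.2 p l)) +
          ∑ k : Fin m, -d k * ∑ _x : Fin 1, ∑ l, g (1 * β k p l) = 0 := h3
    rw [Fintype.sum_prod_type' (f := fun i j => c i j * ∑ k, ∑ l, g (α i p k * α j p l))] at h4
    have h5 : ∑ k : Fin m, -d k * ∑ _x : Fin 1, ∑ l, g (1 * β k p l) =
        - ∑ k, d k * ∑ l, g (β k p l) := by
      rw [← sum_neg_distrib]
      refine sum_congr rfl fun k _ => ?_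
      simp
    rw [h5] at h4
    linarith
  · have h3 := h2 g
    rw [Fintype.sum_sum_type] at h3
    have h4 : (∑ x : Fin (r + 1) × Fin (r + 1), c x.1 x.2 *
        ((μ x.1 x.2).map fun m => g (1 + m) + g (2 - m)).sum) +
          ∑ k : Fin m, -d k * ((ν k).map fun m => g (1 + m) + g (2 - m)).sum = 0 := h3
    rw [Fintype.sum_prod_type' (f := fun i j => c i j *
      ((μ i j).map fun m => g (1 + m) + g (2 - m)).sum)] at h4
    have h5 : ∑ k : Fin m, -d k * ((ν k).map fun m => g (1 + m) + g (2 - m)).sum =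
        - ∑ k, d k * ((ν k).map fun m => g (1 + m) + g (2 - m)).sum := by
      rw [← sum_neg_distrib]
      exact sum_congr rfl fun k _ => by ring
    rw [h5] at h4
    linarith

/-- temperedness at a finite place from coercivity -/
theorem tempered_fin (c : Fin (r + 1) → Fin (r + 1) → ℝ) (d : Fin m → ℝ) (x : ∀ i, Fin (n i) → ℂ)
    (y : ∀ k, Fin (b k) → ℂ) (hx : ∀ i k, x i k ≠ 0)
    (hsd : ∀ i, ∃ σ : Equiv.Perm (Fin (n i)), ∀ k, x i (σ k) = (x i k)⁻¹)
    (h0 : n 0 = 1) (hx0 : ∀ k, x 0 k = 1)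
    (hg : ∀ g : ℂ → ℝ, ∑ i, ∑ j, c i j * ∑ k, ∑ l, g (x i k * x j l) = ∑ k, d k * ∑ l, g (y k l))
    (hy : ∀ k l, ‖y k l‖ = 1)
    (hco : ∀ B : ℝ, ∃ C : ℝ, ∀ X : Fin (r + 1) → ℝ, X 0 = 1 → (∀ i, (n i : ℝ) ≤ X i) →
      |∑ i, ∑ j, c i j * (X i * X j)| ≤ B → ∀ i, X i ≤ C) (i : Fin (r + 1)) (k : Fin (n i)) :
    ‖x i k‖ = 1 := by
  classical
  obtain ⟨C, hC⟩ := hco |∑ k, d k * (b k : ℝ)|
  have hpos : ∀ i k, 0 < ‖x i k‖ := fun i k => norm_pos_iff.2 (hx i k)
  have key : ∀ t : ℝ, Real.exp (t * Real.log ‖x i k‖) ≤ C := by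
    intro t
    have h1 := hg fun z => Real.exp (t * Real.log ‖z‖)
    have e1 : ∀ i j k l, Real.exp (t * Real.log ‖x i k * x j l‖) =
        Real.exp (t * Real.log ‖x i k‖) * Real.exp (t * Real.log ‖x j l‖) := by
      intro i j k l
      rw [norm_mul, Real.log_mul (hpos i k).ne' (hpos j l).ne', mul_add, Real.exp_add]
    have e2 : ∀ k l, Real.exp (t * Real.log ‖y k l‖) = 1 := by
      intro k l
      rw [hy, Real.log_one, mul_zero, Real.exp_zero]
    simp only [e1, e2] at h1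
    have e3 : ∀ i j, (∑ k, ∑ l, Real.exp (t * Real.log ‖x i k‖) * Real.exp (t * Real.log ‖x j l‖)) =
        (∑ k, Real.exp (t * Real.log ‖x i k‖)) * ∑ l, Real.exp (t * Real.log ‖x j l‖) := by
      intro i j
      rw [sum_mul_sum]
    simp only [e3] at h1
    have h2 := hC (fun i => ∑ k, Real.exp (t * Real.log ‖x i k‖)) (by
      have : ∀ k, Real.exp (t * Real.log ‖x 0 k‖) = 1 := by
        intro k
        rw [hx0, norm_one, Real.log_one, mul_zero, Real.exp_zero]
      simp only [this]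
      rw [Finset.sum_const, Finset.card_univ, Fintype.card_fin, h0]
      simp) (fun i => by
      obtain ⟨σ, hσ⟩ := hsd i
      have h3 : ∑ k, Real.exp (t * Real.log ‖x i k‖) = ∑ k, (Real.exp (t * Real.log ‖x i k‖))⁻¹ := by
        rw [← Equiv.sum_comp σ]
        refine sum_congr rfl fun k _ => ?_
        rw [hσ, norm_inv, Real.log_inv, mul_neg, Real.exp_neg]
      have h4 : (2 : ℝ) * n i ≤ ∑ k, (Real.exp (t * Real.log ‖x i k‖) +
          (Real.exp (t * Real.log ‖x i k‖))⁻¹) := by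
        have h5 := Finset.card_nsmul_le_sum (univ : Finset (Fin (n i)))
          (fun k => Real.exp (t * Real.log ‖x i k‖) + (Real.exp (t * Real.log ‖x i k‖))⁻¹) 2
          (fun k _ => two_le_add_inv (Real.exp_pos _))
        rw [Finset.card_univ, Fintype.card_fin, nsmul_eq_mul] at h5
        linarith
      rw [sum_add_distrib, ← h3] at h4
      linarith) (by
      rw [h1]
      refine le_of_eq ?_
      congr 1
      refine sum_congr rfl fun k _ => ?_
      rw [Finset.sum_const, Finset.card_univ, Fintype.card_fin]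
      simp) i
    refine le_trans ?_ h2
    exact single_le_sum (f := fun k => Real.exp (t * Real.log ‖x i k‖))
      (fun _ _ => (Real.exp_pos _).le) (mem_univ k)
  have h1 := exp_bdd key
  rcases Real.log_eq_zero.1 h1 with h | h | h
  · exact absurd h (hpos i k).ne'
  · exact h
  · have := hpos i k
    linarith

/-- the positive case: products of parameters are parameters of the other side -/
theorem positive_fin (c : Fin (r + 1) → Fin (r + 1) → ℝ) (d : Fin m → ℝ) (x : ∀ i, Fin (n i) → ℂ)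
    (y : ∀ k, Fin (b k) → ℂ)
    (hg : ∀ g : ℂ → ℝ, ∑ i, ∑ j, c i j * ∑ k, ∑ l, g (x i k * x j l) = ∑ k, d k * ∑ l, g (y k l))
    (hc : ∀ i j, 0 ≤ c i j) (i j : Fin (r + 1)) (hij : 0 < c i j) (k : Fin (n i)) (l : Fin (n j)) :
    ∃ k', 0 < d k' ∧ ∃ l', y k' l' = x i k * x j l := by
  classical
  have h1 := hg fun z => if z = x i k * x j l then 1 else 0
  have hnn : ∀ i' j' : Fin (r + 1), 0 ≤ c i' j' * ∑ k', ∑ l',
      (if x i' k' * x j' l' = x i k * x j l then (1 : ℝ) else 0) := by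
    intro i' j'
    refine mul_nonneg (hc _ _) (sum_nonneg fun _ _ => sum_nonneg fun _ _ => ?_)
    split_ifs <;> norm_num
  have h2 : c i j ≤ ∑ i', ∑ j', c i' j' * ∑ k', ∑ l',
      (if x i' k' * x j' l' = x i k * x j l then (1 : ℝ) else 0) := by
    refine le_trans ?_ (single_le_sum (f := fun i' => ∑ j', c i' j' * ∑ k', ∑ l',
      (if x i' k' * x j' l' = x i k * x j l then (1 : ℝ) else 0))
      (fun i' _ => sum_nonneg fun j' _ => hnn i' j') (mem_univ i))
    refine le_trans ?_ (single_le_sum (f := fun j' => c i j' * ∑ k', ∑ l',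
      (if x i k' * x j' l' = x i k * x j l then (1 : ℝ) else 0))
      (fun j' _ => hnn i j') (mem_univ j))
    have h3 : (1 : ℝ) ≤ ∑ k', ∑ l', (if x i k' * x j l' = x i k * x j l then (1 : ℝ) else 0) := by
      refine le_trans ?_ (single_le_sum (f := fun k' => ∑ l',
        (if x i k' * x j l' = x i k * x j l then (1 : ℝ) else 0))
        (fun k' _ => sum_nonneg fun l' _ => ?_) (mem_univ k))
      · refine le_trans ?_ (single_le_sum (f := fun l' =>
          (if x i k * x j l' = x i k * x j l then (1 : ℝ) else 0)) (fun l' _ => ?_) (mem_univ l))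
        · simp
        · split_ifs <;> norm_num
      · split_ifs <;> norm_num
    calc c i j = c i j * 1 := (mul_one _).symm
      _ ≤ _ := mul_le_mul_of_nonneg_left h3 hij.le
  by_contra hcon
  push Not at hcon
  have h4 : ∑ k', d k' * ∑ l', (if y k' l' = x i k * x j l then (1 : ℝ) else 0) ≤ 0 := by
    refine sum_nonpos fun k' _ => ?_
    by_cases hd : 0 < d k'
    · rw [sum_eq_zero fun l' _ => if_neg (hcon k' hd l'), mul_zero]
    · refine mul_nonpos_of_nonpos_of_nonneg (not_lt.1 hd) (sum_nonneg fun _ _ => ?_)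
      split_ifs <;> norm_num
  linarith

end Pool.Agent.U664.RR
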