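import Pool.Agent.U664.RR.Fin

/-!
# One polynomial identity of degree two between Hecke eigenvalues: the infinite place
-/

set_option autoImplicit false

namespace Pool.Agent.U664.RR

open Finset

variable {r m : ℕ} {n : Fin (r + 1) → ℕ}

/-- sums over the gamma factors -/
theorem gam_sum {a b : ℕ} {μ : List ℂ} {t : Fin a → ℂ} {s : Fin b → ℂ} {ε : Fin a → ℕ}
    {η : Fin b → ℕ} (hμ : (μ : Multiset ℂ) = (univ : Finset (Fin a × Fin b)).val.map fun q =>
      t q.1 + s q.2 + (((ε q.1 + η q.2) % 2 : ℕ) : ℂ)) (f : ℂ → ℝ) :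
    (μ.map f).sum = ∑ k, ∑ l, f (t k + s l + (((ε k + η l) % 2 : ℕ) : ℂ)) := by
  have h1 := congrArg (fun M : Multiset ℂ => (M.map f).sum) hμ
  simp only [Multiset.map_coe, Multiset.sum_coe, Multiset.map_map, Function.comp_def] at h1
  rw [h1]
  show ∑ q : Fin a × Fin b, f (t q.1 + s q.2 + (((ε q.1 + η q.2) % 2 : ℕ) : ℂ)) = _
  rw [Fintype.sum_prod_type]

theorem convex_exp {u a : ℝ} (h0 : 0 ≤ a) (h1 : a ≤ 1) :
    Real.exp (u * (1 + a)) + Real.exp (u * (2 - a)) ≤ Real.exp u + Real.exp (2 * u) := by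
  have e1 : Real.exp (u * (1 + a)) = Real.exp u * Real.exp (u * a) := by
    rw [← Real.exp_add]
    congr 1
    ring
  have e2 : Real.exp (u * (2 - a)) = Real.exp u * Real.exp (u * (1 - a)) := by
    rw [← Real.exp_add]
    congr 1
    ring
  have e3 : Real.exp (2 * u) = Real.exp u * (Real.exp (u * a) * Real.exp (u * (1 - a))) := by
    rw [← Real.exp_add, ← Real.exp_add]
    congr 1
    ring
  rw [e1, e2, e3]
  have h2 : 0 ≤ (Real.exp (u * a) - 1) * (Real.exp (u * (1 - a)) - 1) := by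
    rcases le_total 0 u with hu | hu
    · refine mul_nonneg ?_ ?_
      · have := Real.one_le_exp (mul_nonneg hu h0)
        linarith
      · have := Real.one_le_exp (mul_nonneg hu (sub_nonneg.2 h1))
        linarith
    · refine mul_nonneg_of_nonpos_of_nonpos ?_ ?_
      · have := Real.exp_le_one_iff.2 (mul_nonpos_of_nonpos_of_nonneg hu h0)
        linarith
      · have := Real.exp_le_one_iff.2 (mul_nonpos_of_nonpos_of_nonneg hu (sub_nonneg.2 h1))
        linarith
  nlinarith [Real.exp_pos u]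

/-- the symmetrised sum over the pairs of archimedean parameters -/
theorem sym_sum {a b : ℕ} {t : Fin a → ℂ} {s : Fin b → ℂ} {ε : Fin a → ℕ} {η : Fin b → ℕ}
    (ht : ∃ σ : Equiv.Perm (Fin a), ∀ k, t (σ k) = -t k ∧ ε (σ k) % 2 = ε k % 2)
    (hs : ∃ σ : Equiv.Perm (Fin b), ∀ k, s (σ k) = -s k ∧ η (σ k) % 2 = η k % 2) (u : ℝ) :
    ∑ k, ∑ l, (Real.exp (u * (1 + (t k + s l + (((ε k + η l) % 2 : ℕ) : ℂ))).re) +
      Real.exp (u * (2 - (t k + s l + (((ε k + η l) % 2 : ℕ) : ℂ))).re)) =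
    (Real.exp u + Real.exp (2 * u)) * ((∑ k, Real.exp (u * (t k).re)) *
      ∑ l, Real.exp (u * (s l).re)) := by
  obtain ⟨σ, hσ⟩ := ht
  obtain ⟨τ, hτ⟩ := hs
  -- the second term, after the substitution `k ↦ σ k`, `l ↦ τ l`
  have h1 : ∑ k, ∑ l, Real.exp (u * (2 - (t k + s l + (((ε k + η l) % 2 : ℕ) : ℂ))).re) =
      ∑ k, ∑ l, Real.exp (u * (2 + (t k + s l) - (((ε k + η l) % 2 : ℕ) : ℂ)).re) := by
    rw [← Equiv.sum_comp σ]
    refine sum_congr rfl fun k _ => ?_
    rw [← Equiv.sum_comp τ]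
    refine sum_congr rfl fun l _ => ?_
    have e2 : (ε (σ k) + η (τ l)) % 2 = (ε k + η l) % 2 := by
      rw [Nat.add_mod, (hσ k).2, (hτ l).2, ← Nat.add_mod]
    rw [e2, (hσ k).1, (hτ l).1]
    congr 3
    ring
  have h2 : ∑ k, ∑ l, (Real.exp (u * (1 + (t k + s l + (((ε k + η l) % 2 : ℕ) : ℂ))).re) +
      Real.exp (u * (2 - (t k + s l + (((ε k + η l) % 2 : ℕ) : ℂ))).re)) =
      ∑ k, ∑ l, (Real.exp (u * (1 + (t k + s l + (((ε k + η l) % 2 : ℕ) : ℂ))).re) +
      Real.exp (u * (2 + (t k + s l) - (((ε k + η l) % 2 : ℕ) : ℂ)).re)) := by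
    simp only [sum_add_distrib]
    rw [h1]
  rw [h2, sum_mul_sum, mul_sum]
  refine sum_congr rfl fun k _ => ?_
  rw [mul_sum]
  refine sum_congr rfl fun l _ => ?_
  have hp : (ε k + η l) % 2 = 0 ∨ (ε k + η l) % 2 = 1 := by omega
  have e0 : Real.exp (u * (t k).re) * Real.exp (u * (s l).re) =
      Real.exp (u * ((t k).re + (s l).re)) := by
    rw [← Real.exp_add, mul_add]
  rw [e0, add_mul, ← Real.exp_add, ← Real.exp_add]
  rcases hp with hp | hp
  · rw [hp]
    congr 1
    · congr 1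
      simp
      ring
    · congr 1
      simp
      ring
  · rw [hp, add_comm]
    congr 1
    · congr 1
      simp
      ring
    · congr 1
      simp
      ring

/-- temperedness at the infinite place from coercivity -/
theorem tempered_inf (c : Fin (r + 1) → Fin (r + 1) → ℝ) (d : Fin m → ℝ)
    (t : ∀ i, Fin (n i) → ℂ) (ε : ∀ i, Fin (n i) → ℕ)
    (hsd : ∀ i, ∃ σ : Equiv.Perm (Fin (n i)), ∀ k, t i (σ k) = -t i k ∧ ε i (σ k) % 2 = ε i k % 2)
    (h0 : n 0 = 1) (ht0 : ∀ k, t 0 k = 0)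
    {μ : Fin (r + 1) → Fin (r + 1) → List ℂ} {ν : Fin m → List ℂ}
    (hμ : ∀ i j, ((μ i j : List ℂ) : Multiset ℂ) = (univ : Finset (Fin (n i) × Fin (n j))).val.map fun q =>
      t i q.1 + t j q.2 + (((ε i q.1 + ε j q.2) % 2 : ℕ) : ℂ))
    (hg : ∀ g : ℂ → ℝ, ∑ i, ∑ j, c i j * ((μ i j).map fun m => g (1 + m) + g (2 - m)).sum =
      ∑ k, d k * ((ν k).map fun m => g (1 + m) + g (2 - m)).sum)
    (hν : ∀ k, ∀ m ∈ ν k, 0 ≤ m.re ∧ m.re ≤ 1)
    (hco : ∀ B : ℝ, ∃ C : ℝ, ∀ X : Fin (r + 1) → ℝ, X 0 = 1 → (∀ i, (n i : ℝ) ≤ X i) →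
      |∑ i, ∑ j, c i j * (X i * X j)| ≤ B → ∀ i, X i ≤ C) (i : Fin (r + 1)) (k : Fin (n i)) :
    (t i k).re = 0 := by
  classical
  obtain ⟨C, hC⟩ := hco (∑ k, |d k| * ((ν k).length : ℝ))
  refine exp_bdd (C := C) fun u => ?_
  have h1 := hg fun z => Real.exp (u * z.re)
  have h2 : ∀ i j, ((μ i j).map fun m => (fun z : ℂ => Real.exp (u * z.re)) (1 + m) +
      (fun z : ℂ => Real.exp (u * z.re)) (2 - m)).sum =
      (Real.exp u + Real.exp (2 * u)) * ((∑ k, Real.exp (u * (t i k).re)) *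
        ∑ l, Real.exp (u * (t j l).re)) := by
    intro i j
    rw [gam_sum (hμ i j) fun m => (fun z : ℂ => Real.exp (u * z.re)) (1 + m) +
      (fun z : ℂ => Real.exp (u * z.re)) (2 - m)]
    exact sym_sum (hsd i) (hsd j) u
  have hE : 0 < Real.exp u + Real.exp (2 * u) := by positivity
  have h3 : |∑ i, ∑ j, c i j * ((∑ k, Real.exp (u * (t i k).re)) *
      ∑ l, Real.exp (u * (t j l).re))| ≤ ∑ k, |d k| * ((ν k).length : ℝ) := by
    have h4 : (Real.exp u + Real.exp (2 * u)) * (∑ i, ∑ j, c i j *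
        ((∑ k, Real.exp (u * (t i k).re)) * ∑ l, Real.exp (u * (t j l).re))) =
        ∑ k, d k * ((ν k).map fun m => Real.exp (u * (1 + m).re) + Real.exp (u * (2 - m).re)).sum := by
      rw [← h1, mul_sum]
      refine sum_congr rfl fun i _ => ?_
      rw [mul_sum]
      refine sum_congr rfl fun j _ => ?_
      rw [h2]
      ring
    have h5 : |∑ k, d k * ((ν k).map fun m => Real.exp (u * (1 + m).re) +
        Real.exp (u * (2 - m).re)).sum| ≤
        ∑ k, |d k| * (((ν k).length : ℝ) * (Real.exp u + Real.exp (2 * u))) := by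
      refine (Finset.abs_sum_le_sum_abs _ _).trans (sum_le_sum fun k _ => ?_)
      rw [abs_mul]
      refine mul_le_mul_of_nonneg_left ?_ (abs_nonneg _)
      rw [abs_of_nonneg (List.sum_nonneg (by
        intro x hx
        obtain ⟨m, -, rfl⟩ := List.mem_map.1 hx
        positivity))]
      have h6 := List.sum_le_card_nsmul ((ν k).map fun m => Real.exp (u * (1 + m).re) +
        Real.exp (u * (2 - m).re)) (Real.exp u + Real.exp (2 * u)) (by
          intro x hx
          obtain ⟨m, hm, rfl⟩ := List.mem_map.1 hx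
          have h7 := convex_exp (u := u) (hν k m hm).1 (hν k m hm).2
          have e1 : (1 + m).re = 1 + m.re := by simp
          have e2 : (2 - m).re = 2 - m.re := by simp
          rw [e1, e2]
          exact h7)
      rw [List.length_map, nsmul_eq_mul] at h6
      exact h6
    have h8 : (Real.exp u + Real.exp (2 * u)) * |∑ i, ∑ j, c i j * ((∑ k, Real.exp (u * (t i k).re)) *
        ∑ l, Real.exp (u * (t j l).re))| ≤
        (Real.exp u + Real.exp (2 * u)) * ∑ k, |d k| * ((ν k).length : ℝ) := by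
      calc (Real.exp u + Real.exp (2 * u)) * |∑ i, ∑ j, c i j * ((∑ k, Real.exp (u * (t i k).re)) *
          ∑ l, Real.exp (u * (t j l).re))| =
          |∑ k, d k * ((ν k).map fun m => Real.exp (u * (1 + m).re) +
            Real.exp (u * (2 - m).re)).sum| := by rw [← h4, abs_mul, abs_of_pos hE]
        _ ≤ ∑ k, |d k| * (((ν k).length : ℝ) * (Real.exp u + Real.exp (2 * u))) := h5
        _ = (Real.exp u + Real.exp (2 * u)) * ∑ k, |d k| * ((ν k).length : ℝ) := by
            rw [mul_sum]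
            exact sum_congr rfl fun k _ => by ring
    exact le_of_mul_le_mul_left h8 hE
  have h9 := hC (fun i => ∑ k, Real.exp (u * (t i k).re)) (by
    have : ∀ k, Real.exp (u * (t 0 k).re) = 1 := by
      intro k
      rw [ht0, Complex.zero_re, mul_zero, Real.exp_zero]
    simp only [this]
    rw [Finset.sum_const, Finset.card_univ, Fintype.card_fin, h0]
    simp) (fun i => by
    obtain ⟨σ, hσ⟩ := hsd i
    have h3 : ∑ k, Real.exp (u * (t i k).re) = ∑ k, (Real.exp (u * (t i k).re))⁻¹ := by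
      rw [← Equiv.sum_comp σ]
      refine sum_congr rfl fun k _ => ?_
      rw [(hσ k).1, Complex.neg_re, mul_neg, Real.exp_neg]
    have h4 : (2 : ℝ) * n i ≤ ∑ k, (Real.exp (u * (t i k).re) + (Real.exp (u * (t i k).re))⁻¹) := by
      have h5 := Finset.card_nsmul_le_sum (univ : Finset (Fin (n i)))
        (fun k => Real.exp (u * (t i k).re) + (Real.exp (u * (t i k).re))⁻¹) 2
        (fun k _ => two_le_add_inv (Real.exp_pos _))
      rw [Finset.card_univ, Fintype.card_fin, nsmul_eq_mul] at h5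
      linarith
    rw [sum_add_distrib, ← h3] at h4
    linarith) h3 i
  refine le_trans ?_ h9
  exact single_le_sum (f := fun k => Real.exp (u * (t i k).re))
    (fun _ _ => (Real.exp_pos _).le) (mem_univ k)

/-- the positive case at infinity -/
theorem positive_inf (c : Fin (r + 1) → Fin (r + 1) → ℝ) (d : Fin m → ℝ)
    (t : ∀ i, Fin (n i) → ℂ) (ε : ∀ i, Fin (n i) → ℕ)
    (hsd : ∀ i, ∃ σ : Equiv.Perm (Fin (n i)), ∀ k, t i (σ k) = -t i k ∧ ε i (σ k) % 2 = ε i k % 2)
    {μ : Fin (r + 1) → Fin (r + 1) → List ℂ} {ν : Fin m → List ℂ}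
    (hμ : ∀ i j, ((μ i j : List ℂ) : Multiset ℂ) = (univ : Finset (Fin (n i) × Fin (n j))).val.map fun q =>
      t i q.1 + t j q.2 + (((ε i q.1 + ε j q.2) % 2 : ℕ) : ℂ))
    (hg : ∀ g : ℂ → ℝ, ∑ i, ∑ j, c i j * ((μ i j).map fun m => g (1 + m) + g (2 - m)).sum =
      ∑ k, d k * ((ν k).map fun m => g (1 + m) + g (2 - m)).sum)
    {δ : ℝ} (ht : ∀ i k, |(t i k).re| < δ)
    (hν : ∀ k, ∀ m ∈ ν k, 0 ≤ m.re ∧ (m.re ≤ 1 ∨ 1 + 2 * δ ≤ m.re))
    (hc : ∀ i j, 0 ≤ c i j) (i j : Fin (r + 1)) (hij : 0 < c i j) (k : Fin (n i)) (l : Fin (n j)) :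
    (t i k).re = 0 ∧ (t j l).re = 0 := by
  classical
  -- a point `z` of the left hand side such that neither `z` nor `1 - z` is on the right hand side
  have key : ∀ k l, ((t i k).re + (t j l).re) ≤ 0 := by
    intro k l
    by_contra hcon
    push Not at hcon
    obtain ⟨τ, hτ⟩ : ∃ τ, τ = (t i k).re + (t j l).re := ⟨_, rfl⟩
    rw [← hτ] at hcon
    have hτ2 : τ < 2 * δ := by
      have h1 := (abs_lt.1 (ht i k)).2
      have h2 := (abs_lt.1 (ht j l)).2
      linarith
    obtain ⟨σ, hσ⟩ := hsd i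
    obtain ⟨ρ, hρ⟩ := hsd j
    -- the point
    obtain ⟨k', l', hz⟩ : ∃ k' l', ((t i k' + t j l' + (((ε i k' + ε j l') % 2 : ℕ) : ℂ)).re = -τ ∨
        (t i k' + t j l' + (((ε i k' + ε j l') % 2 : ℕ) : ℂ)).re = 1 + τ) := by
      have hp : (ε i k + ε j l) % 2 = 0 ∨ (ε i k + ε j l) % 2 = 1 := by omega
      rcases hp with hp | hp
      · refine ⟨σ k, ρ l, Or.inl ?_⟩
        have e2 : (ε i (σ k) + ε j (ρ l)) % 2 = 0 := by
          rw [Nat.add_mod, (hσ k).2, (hρ l).2, ← Nat.add_mod, hp]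
        rw [e2, (hσ k).1, (hρ l).1, hτ]
        simp
        ring
      · refine ⟨k, l, Or.inr ?_⟩
        rw [hp, hτ]
        simp
        ring
    obtain ⟨z, hzd⟩ : ∃ z, z = t i k' + t j l' + (((ε i k' + ε j l') % 2 : ℕ) : ℂ) := ⟨_, rfl⟩
    rw [← hzd] at hz
    have h1 := hg fun w => if w = 1 + z then 1 else 0
    -- the right hand side is zero
    have hR : ∀ k, ∀ m ∈ ν k, m ≠ z ∧ 2 - m ≠ 1 + z := by
      intro k m hm
      have h2 := hν k m hm
      constructor
      · rintro rfl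
        rcases hz with h | h
        · linarith [h2.1]
        · rcases h2.2 with h3 | h3 <;> linarith
      · intro h3
        have h4 : m.re = 1 - z.re := by
          have := congrArg Complex.re h3
          simp at this
          linarith
        rcases hz with h | h
        · rcases h2.2 with h5 | h5 <;> linarith
        · linarith [h2.1]
    have hR0 : ∑ k, d k * ((ν k).map fun m => (if 1 + m = 1 + z then (1 : ℝ) else 0) +
        if 2 - m = 1 + z then 1 else 0).sum = 0 := by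
      refine sum_eq_zero fun k _ => ?_
      have h5 : ((ν k).map fun m => (if 1 + m = 1 + z then (1 : ℝ) else 0) +
          if 2 - m = 1 + z then 1 else 0) = (ν k).map fun _ => (0 : ℝ) := by
        refine List.map_congr_left fun m hm => ?_
        have h6 := hR k m hm
        rw [if_neg (fun h => h6.1 (add_left_cancel h)), if_neg h6.2, add_zero]
      rw [h5]
      simp
    have h2 : ∑ i, ∑ j, c i j * ((μ i j).map fun m => (if 1 + m = 1 + z then (1 : ℝ) else 0) +
        if 2 - m = 1 + z then 1 else 0).sum = 0 := by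
      exact h1.trans hR0
    have hnn : ∀ i' j' : Fin (r + 1), 0 ≤ c i' j' * ((μ i' j').map fun m =>
        (if 1 + m = 1 + z then (1 : ℝ) else 0) + if 2 - m = 1 + z then 1 else 0).sum := by
      intro i' j'
      refine mul_nonneg (hc _ _) (List.sum_nonneg ?_)
      intro x hx
      obtain ⟨m, -, rfl⟩ := List.mem_map.1 hx
      have h3 : (0 : ℝ) ≤ if 1 + m = 1 + z then (1 : ℝ) else 0 := by split_ifs <;> norm_num
      have h4 : (0 : ℝ) ≤ if 2 - m = 1 + z then (1 : ℝ) else 0 := by split_ifs <;> norm_num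
      linarith
    have h3 : c i j ≤ ∑ i, ∑ j, c i j * ((μ i j).map fun m =>
        (if 1 + m = 1 + z then (1 : ℝ) else 0) + if 2 - m = 1 + z then 1 else 0).sum := by
      refine le_trans ?_ (single_le_sum (f := fun i' => ∑ j', c i' j' * ((μ i' j').map fun m =>
        (if 1 + m = 1 + z then (1 : ℝ) else 0) + if 2 - m = 1 + z then 1 else 0).sum)
        (fun i' _ => sum_nonneg fun j' _ => hnn i' j') (mem_univ i))
      refine le_trans ?_ (single_le_sum (f := fun j' => c i j' * ((μ i j').map fun m =>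
        (if 1 + m = 1 + z then (1 : ℝ) else 0) + if 2 - m = 1 + z then 1 else 0).sum)
        (fun j' _ => hnn i j') (mem_univ j))
      have h4 : (1 : ℝ) ≤ ((μ i j).map fun m =>
          (if 1 + m = 1 + z then (1 : ℝ) else 0) + if 2 - m = 1 + z then 1 else 0).sum := by
        rw [gam_sum (hμ i j) fun m => (if 1 + m = 1 + z then (1 : ℝ) else 0) +
          if 2 - m = 1 + z then 1 else 0]
        have hnn2 : ∀ m : ℂ, (0 : ℝ) ≤ (if 1 + m = 1 + z then (1 : ℝ) else 0) +
            if 2 - m = 1 + z then 1 else 0 := by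
          intro m
          have h3 : (0 : ℝ) ≤ if 1 + m = 1 + z then (1 : ℝ) else 0 := by split_ifs <;> norm_num
          have h4 : (0 : ℝ) ≤ if 2 - m = 1 + z then (1 : ℝ) else 0 := by split_ifs <;> norm_num
          linarith
        refine le_trans ?_ (single_le_sum (f := fun k' => ∑ l', ((if 1 + (t i k' + t j l' +
          (((ε i k' + ε j l') % 2 : ℕ) : ℂ)) = 1 + z then (1 : ℝ) else 0) +
          if 2 - (t i k' + t j l' + (((ε i k' + ε j l') % 2 : ℕ) : ℂ)) = 1 + z then 1 else 0))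
          (fun k' _ => sum_nonneg fun l' _ => hnn2 _) (mem_univ k'))
        refine le_trans ?_ (single_le_sum (f := fun l' => ((if 1 + (t i k' + t j l' +
          (((ε i k' + ε j l') % 2 : ℕ) : ℂ)) = 1 + z then (1 : ℝ) else 0) +
          if 2 - (t i k' + t j l' + (((ε i k' + ε j l') % 2 : ℕ) : ℂ)) = 1 + z then 1 else 0))
          (fun l' _ => hnn2 _) (mem_univ l'))
        rw [← hzd, if_pos rfl]
        have : (0 : ℝ) ≤ if 2 - z = 1 + z then (1 : ℝ) else 0 := by split_ifs <;> norm_num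
        linarith
      calc c i j = c i j * 1 := (mul_one _).symm
        _ ≤ _ := mul_le_mul_of_nonneg_left h4 hij.le
    linarith
  obtain ⟨σ, hσ⟩ := hsd i
  obtain ⟨ρ, hρ⟩ := hsd j
  have h1 := key k l
  have h2 := key (σ k) (ρ l)
  have h3 := key k (ρ l)
  have h4 := key (σ k) l
  rw [(hσ k).1, (hρ l).1, Complex.neg_re, Complex.neg_re] at h2
  rw [(hρ l).1, Complex.neg_re] at h3
  rw [(hσ k).1, Complex.neg_re] at h4
  constructor <;> linarith

end Pool.Agent.U664.RR
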